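import Pool.Agent.H57.AR.Targets
import Pool.Agent.H57.SO.CYP

/-!
# All arities: the cyclic polymorphism of the template
-/

set_option autoImplicit false
set_option linter.unusedVariables false

namespace Pool.Agent.H74.AR

open Pool.Agent.H68.BP Pool.Agent.H58.SF Pool.Agent.H53.GC Pool.Agent.H53.NR Pool.Agent.H53.GR
open Pool.Agent.H57.AR
open Pool.Agent.H57.SO (Pal Col vt Exa Sb FBl Sbn Bh fib sigF relP_cx tau_shift kap_shift)
open Pool.Agent.H57.EQ (Cx)
open Pool.Agent.H68.GC
open Function

theorem lft_shift {ρ : Sig} {p M : ℕ} {f : (ZMod p → Dm ρ M) → Dm ρ M}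
    (hcyc : ∀ x, f (fun i => x (i + 1)) = f x) (k : ℕ) (o : Od k) (T : ZMod p → Str ρ (Fin k)) :
    lft f k o (fun s => T (s + 1)) = lft f k o T := by
  by_cases h : ∃ x : (Σ n : Fin M, (Fin (n + 1) → Fin k) × (Fin k → Fin (n + 1))), Enm o x
  · have e : ∀ T : ZMod p → Str ρ (Fin k), lft f k o T = pull (val h.choose.1
        (f fun a => ⟨h.choose.1, pull (T a) h.choose.2.1⟩)) h.choose.2.2 := fun T => dif_pos h
    rw [e, e, hcyc (fun a => ⟨h.choose.1, pull (T a) h.choose.2.1⟩)]
  · have e : ∀ T : ZMod p → Str ρ (Fin k), lft f k o T = fun _ _ => False := fun T => dif_neg h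
    rw [e, e]

/-- elements with the same first component -/
theorem const_inj {Y : Type} {S : Type} {ρ : Sig} {M : ℕ} {I : Type} [Nonempty I]
    {x y : Σ j : Fin M, I → ElD S ρ Y (j + 1)}
    (h : (fun i => (⟨x.1, x.2 i⟩ : Σ j : Fin M, ElD S ρ Y (j + 1))) = fun i => ⟨y.1, y.2 i⟩) :
    x = y := by
  obtain ⟨j, d⟩ := x
  obtain ⟨j', d'⟩ := y
  have h1 : j = j' := congrArg Sigma.fst (congrFun h (Classical.arbitrary I))
  subst h1
  have h2 : d = d' := by
    funext i
    exact eq_of_heq (Sigma.mk.inj (congrFun h i)).2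
  rw [h2]

theorem pf_CYPR (hDDXR : T_DDXR) (hLFTR : T_LFTR) : T_CYPR := by
  intro σ ρ V S X _ _ P 𝔸 𝔹 M c hS p f hp hf hcyc τ κ F hF hτ hκ
  classical
  have : NeZero p := ⟨hp.ne_zero⟩
  have hM := hS.base.three
  choose e he1 he2 he3 using hF.form
  -- the components
  let U : (j : Fin M) → (ZMod p → ElD S ρ (Dm ρ M) (j + 1)) → ElD S ρ (Dm ρ M) (j + 1) :=
    fun j d => ⟨fun a => τ (fun i => (d i).ts a),
      fun a b => κ (fun i => (d i).ts a) (fun i => (d i).ts b) {i | (d i).kr a b},
      fun o => lft f (j + 1) o (fun s => (e j (fun i => d (i + s))).st o),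
      fun φ => f (fun s => (e j (fun i => d (i + s))).sg φ)⟩
  let u : (ZMod p → El S ρ M) → El S ρ M := fun z =>
    if h : ∃ x : (Σ j : Fin M, ZMod p → ElD S ρ (Dm ρ M) (j + 1)), z = fun i => ⟨x.1, x.2 i⟩ then
      ⟨h.choose.1, U h.choose.1 h.choose.2⟩
    else @Classical.arbitrary (El S ρ M) ⟨z 0⟩
  have hu : ∀ (j : Fin M) (d : ZMod p → ElD S ρ (Dm ρ M) (j + 1)),
      u (fun i => ⟨j, d i⟩) = ⟨j, U j d⟩ := by
    intro j d
    have h : ∃ x : (Σ j : Fin M, ZMod p → ElD S ρ (Dm ρ M) (j + 1)),
        (fun i => (⟨j, d i⟩ : El S ρ M)) = fun i => ⟨x.1, x.2 i⟩ := ⟨⟨j, d⟩, rfl⟩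
    have h1 : (⟨j, d⟩ : Σ j : Fin M, ZMod p → ElD S ρ (Dm ρ M) (j + 1)) = h.choose :=
      const_inj h.choose_spec
    have h2 : u (fun i => ⟨j, d i⟩) = ⟨h.choose.1, U h.choose.1 h.choose.2⟩ := dif_pos h
    rw [h2, ← h1]
  refine ⟨u, ?_, ?_⟩
  · refine (poly_strOn _ _ _).2 ?_
    intro s q hq
    have hG' := (poly_strOn _ _ _).1 hF.poly
    have hx : ∀ j : ZMod p, FamR P 𝔸 𝔹 M c (tf 𝔸 𝔹 M c) s (fun e => F (fun i => q (i + j) e)) :=
      fun j => hG' s (fun i => q (i + j)) (fun i => hq (i + j))
    choose kq Eq tq stq _ _ hq1 _ using hq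
    choose k E t st hEp hsup hform hfam using hx
    let D : ZMod p → (j : Fin M) → (Fin (j + 1) → Fin (arP σ M s)) →
        ElD S ρ (Dm ρ M) (j + 1) := fun i j α =>
      ⟨fun a => tq i (α a), fun a b => kq i (α a) = kq i (α b), stq i j α, rsS α (Eq i)⟩
    have hD : ∀ i j α, q i ⟨j, α⟩ = ⟨j, D i j α⟩ := fun i j α => hq1 i j α
    have heD : ∀ (l : ZMod p) (j : Fin M) (α : Fin (j + 1) → Fin (arP σ M s)),
        e j (fun i => D (i + l) j α) =
          ⟨fun a => t l (α a), fun a b => k l (α a) = k l (α b), st l j α, rsS α (E l)⟩ := by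
      intro l j α
      have h1 := hform l j α
      have h2 : (fun i => q (i + l) ⟨j, α⟩) = fun i => ⟨j, D (i + l) j α⟩ := by
        funext i
        exact hD _ _ _
      simp only [h2, he1] at h1
      exact eq_of_heq (Sigma.mk.inj h1).2
    have ht : ∀ l a, t l a = τ (fun i => tq i a) := by
      intro l a
      have h1 := he2 (⟨0, by omega⟩ : Fin M) (fun i => D (i + l) _ (fun _ => a)) 0
      rw [heD] at h1
      exact h1.trans (tau_shift hτ l (fun i => tq i a))
    have hk : ∀ l a b, k l a = k l b ↔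
        κ (fun i => tq i a) (fun i => tq i b) {i | kq i a = kq i b} := by
      intro l a b
      have h1 := he3 (⟨1, by omega⟩ : Fin M) (fun i => D (i + l) _ ![a, b]) 0 1
      rw [heD] at h1
      exact h1.trans (kap_shift hκ l (fun i => tq i a) (fun i => tq i b) {i | kq i a = kq i b})
    have hk0 : ∀ l a b, k l a = k l b ↔ k 0 a = k 0 b := fun l a b =>
      (hk l a b).trans (hk 0 a b).symm
    have hlin : ∀ l o, LinO (k 0) o → LinO (k l) o := by
      rintro l o ⟨rk, h1, h2⟩
      exact ⟨rk, fun a b => (h1 a b).trans (hk0 l a b).symm, h2⟩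
    refine ⟨k 0, fun φ => f (fun l => E l φ), t 0,
      fun j α o => lft f (j + 1) o (fun l => st l j α o), ?_, ?_, ?_, ?_⟩
    · intro l x hx
      exact hf l (fun i a => E i (fun o => x o a)) (fun i => hEp i l x hx)
    · intro φ φ' h
      change f _ = f _
      congr 1
      funext l
      refine hsup l φ φ' ?_
      intro o ho
      refine h o ?_
      obtain ⟨rk, h1, h2⟩ := ho
      exact ⟨rk, fun a b => (h1 a b).trans (hk0 l a b), h2⟩
    · intro j α
      change u (fun i => q i ⟨j, α⟩) = _
      have h2 : (fun i => q i ⟨j, α⟩) = fun i => ⟨j, D i j α⟩ := by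
        funext i
        exact hD _ _ _
      rw [h2, hu]
      have h3 : U j (fun i => D i j α) =
          ⟨fun a => t 0 (α a), fun a b => k 0 (α a) = k 0 (α b),
            fun o => lft f (j + 1) o (fun l => st l j α o), rsS α (fun φ => f (fun l => E l φ))⟩ := by
        change (⟨_, _, _, _⟩ : ElD S ρ (Dm ρ M) (j + 1)) = _
        simp only [heD]
        have e1 : (fun a => t 0 (α a)) = fun a => τ (fun i => (D i j α).ts a) := by
          funext a
          exact ht 0 _
        have e2 : (fun a b => k 0 (α a) = k 0 (α b)) = fun a b =>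
            κ (fun i => (D i j α).ts a) (fun i => (D i j α).ts b) {i | (D i j α).kr a b} := by
          funext a b
          exact propext (hk 0 _ _)
        rw [e1, e2]
        rfl
      rw [h3]
    · intro rk hrk
      have hex : ∀ l, ∃ x : Fin (arP σ M s) → V, relP 𝔸 M s x ∧ (∀ a b, x a = x b ↔ k l a = k l b) ∧
          (∀ a, vt P c (x a) = t l a) ∧
          ∀ (j : Fin M) (α : Fin (j + 1) → Fin (arP σ M s)),
            pull 𝔹 (fun a => x (α a)) = st l j α (ord (fun a => rk (α a))) := fun l =>
        hfam l rk (fun a b => (hrk a b).trans (hk0 l a b).symm)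
      choose x hxR hxk hxt hxs using hex
      let W : Type := Set.range (k 0)
      let pr : Fin (arP σ M s) → W := fun a => ⟨k 0 a, a, rfl⟩
      have hpr : ∀ w : W, ∃ a, w = pr a := by
        rintro ⟨v, a, rfl⟩
        exact ⟨a, rfl⟩
      let Gm : ZMod p → W → V := fun j w => x j (Classical.choose w.2)
      have hGm : ∀ j a, Gm j (pr a) = x j a := by
        intro j a
        have h1 : k 0 (Classical.choose (pr a).2) = k 0 a := Classical.choose_spec (pr a).2
        exact (hxk j _ _).2 ((hk0 j _ _).2 h1)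
      have hGi : ∀ j, Injective (Gm j) := by
        intro j w w' h
        obtain ⟨a, rfl⟩ := hpr w
        obtain ⟨b, rfl⟩ := hpr w'
        rw [hGm, hGm] at h
        exact Subtype.ext ((hk0 j _ _).1 ((hxk j _ _).1 h))
      have hGt : ∀ j j' w, vt P c (Gm j w) = vt P c (Gm j' w) := by
        intro j j' w
        obtain ⟨a, rfl⟩ := hpr w
        rw [hGm, hGm, hxt, hxt, ht, ht]
      let rkW : W → ℕ := fun w => rk (Classical.choose w.2)
      have hrkW : ∀ a, rkW (pr a) = rk a := by
        intro a
        have h1 : k 0 (Classical.choose (pr a).2) = k 0 a := Classical.choose_spec (pr a).2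
        exact (hrk _ _).2 h1
      have hrkI : Injective rkW := by
        intro w w' h
        obtain ⟨a, rfl⟩ := hpr w
        obtain ⟨b, rfl⟩ := hpr w'
        rw [hrkW, hrkW] at h
        exact Subtype.ext ((hrk _ _).1 h)
      obtain ⟨ψ, hψi, hψC, hψt, hψN⟩ :=
        hDDXR σ ρ V S X P 𝔸 𝔹 M c hS (ZMod p) f hf W rkW hrkI Gm hGi hGt
      have hψL := hLFTR ρ V 𝔹 M (ZMod p) W f rkW hrkI Gm ψ hψN
      refine ⟨fun a => ψ (pr a), ?_, ?_, ?_, ?_⟩
      · refine relP_cx hψC s pr ?_
        intro i
        simp only [hGm]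
        exact hxR i
      · intro a b
        constructor
        · intro h
          exact congrArg Subtype.val (hψi h)
        · intro h
          have : pr a = pr b := Subtype.ext h
          change ψ (pr a) = ψ (pr b)
          rw [this]
      · intro a
        change vt P c (ψ (pr a)) = _
        rw [hψt 0, hGm, hxt]
      · intro j α
        have h1 := hψL (j + 1) (fun a => pr (α a)) (by omega) (by have := j.2; omega)
        have h2 : (fun a b => rkW (pr (α a)) < rkW (pr (α b))) = ord (fun a => rk (α a)) := by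
          funext a b
          rw [hrkW, hrkW]
          rfl
        have h3 : (fun l => pull 𝔹 (fun i => Gm l (pr (α i)))) =
            fun l => st l j α (ord (fun a => rk (α a))) := by
          funext l
          rw [← hxs l j α]
          congr 1
          funext i
          exact hGm l _
        exact h1.trans (congrArg₂ (lft f (j + 1)) h2 h3)
  · intro z
    by_cases h : ∃ x : (Σ j : Fin M, ZMod p → ElD S ρ (Dm ρ M) (j + 1)), z = fun i => ⟨x.1, x.2 i⟩
    · obtain ⟨⟨j, d⟩, rfl⟩ := h
      change u (fun i => ⟨j, d (i + 1)⟩) = u (fun i => ⟨j, d i⟩)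
      rw [hu j (fun i => d (i + 1)), hu j d]
      have h3 : U j (fun i => d (i + 1)) = U j d := by
        change (⟨_, _, _, _⟩ : ElD S ρ (Dm ρ M) (j + 1)) = ⟨_, _, _, _⟩
        have ea : ∀ s : ZMod p, (fun i => d (i + s + 1)) = fun i => d (i + (s + 1)) := by
          intro s
          funext i
          rw [add_assoc]
        have e1 : (fun a => τ (fun i => (d (i + 1)).ts a)) = fun a => τ (fun i => (d i).ts a) := by
          funext a
          exact hτ (fun i => (d i).ts a)
        have e2 : (fun a b => κ (fun i => (d (i + 1)).ts a) (fun i => (d (i + 1)).ts b)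
            {i | (d (i + 1)).kr a b}) =
            fun a b => κ (fun i => (d i).ts a) (fun i => (d i).ts b) {i | (d i).kr a b} := by
          funext a b
          exact propext (hκ (fun i => (d i).ts a) (fun i => (d i).ts b) {i | (d i).kr a b})
        have e3 : (fun o => lft f (j + 1) o (fun s => (e j (fun i => d (i + s + 1))).st o)) =
            fun o => lft f (j + 1) o (fun s => (e j (fun i => d (i + s))).st o) := by
          funext o
          simp only [ea]
          exact lft_shift hcyc _ o (fun s => (e j (fun i => d (i + s))).st o)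
        have e4 : (fun φ => f (fun s => (e j (fun i => d (i + s + 1))).sg φ)) =
            fun φ => f (fun s => (e j (fun i => d (i + s))).sg φ) := by
          funext φ
          simp only [ea]
          exact hcyc (fun s => (e j (fun i => d (i + s))).sg φ)
        rw [e1, e2, e3, e4]
      rw [h3]
    · have h' : ¬ ∃ x : (Σ j : Fin M, ZMod p → ElD S ρ (Dm ρ M) (j + 1)),
          (fun i => z (i + 1)) = fun i => ⟨x.1, x.2 i⟩ := by
        rintro ⟨⟨j, d⟩, hx⟩
        refine h ⟨⟨j, fun i => d (i - 1)⟩, ?_⟩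
        funext i
        have h1 := congrFun hx (i - 1)
        simp only [sub_add_cancel] at h1
        exact h1
      have e1 : u z = @Classical.arbitrary (El S ρ M) ⟨z 0⟩ := dif_neg h
      have e2 : u (fun i => z (i + 1)) = @Classical.arbitrary (El S ρ M) ⟨z (0 + 1)⟩ := dif_neg h'
      rw [e1, e2]

end Pool.Agent.H74.AR
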